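import Mathlib

set_option autoImplicit false

namespace Pool.Agent.Results.MP_d06a13_ag.Triangles

open MvPolynomial

/-- The squarefree monomial ideal with one generator `∏ i ∈ A, X i` for each `A ∈ S`. -/
noncomputable def sqf (K : Type) [Field K] {n : ℕ} (S : Finset (Finset (Fin n))) :
    Ideal (MvPolynomial (Fin n) K) :=
  Ideal.span ((fun A => ∏ i ∈ A, X i) '' S)

/-- Minimal non-faces of two disjoint hollow triangles. -/
def S : Finset (Finset (Fin 6)) := {{0, 1, 2}, {3, 4, 5}, {0, 3}, {0, 4}, {0, 5}, {1, 3}, {1, 4},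
  {1, 5}, {2, 3}, {2, 4}, {2, 5}}

variable {K : Type} [Field K]

theorem kill {A : Type} [CommRing A] [Algebra K A] (B : Finset (Fin 6)) (hB : ∀ C ∈ S, ¬ C ⊆ B)
    (t : A) {f : MvPolynomial (Fin 6) K} (hf : f ∈ sqf K S) :
    aeval (fun i => if i ∈ B then t else 0) f = 0 := by
  refine (Ideal.span_le.2 ?_ : _ ≤ RingHom.ker (aeval (R := K) _)) hf
  rintro _ ⟨C, hC, rfl⟩
  obtain ⟨i, h1, h2⟩ := Finset.not_subset.1 (hB C hC)
  simp only [SetLike.mem_coe, RingHom.mem_ker, map_prod, aeval_X]
  exact Finset.prod_eq_zero h1 (if_neg h2)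

theorem mix (i j : Fin 6) (hi : i < 3) (hj : ¬ j < 3) : X i * X j ∈ sqf K S :=
  Ideal.subset_span ⟨{i, j}, by revert i j; decide, Finset.prod_pair (by omega)⟩

/-- Setting the last three variables to zero. -/
noncomputable def σ : MvPolynomial (Fin 6) K →ₐ[K] MvPolynomial (Fin 6) K :=
  aeval fun i => if i < 3 then X i else 0

theorem s1 (i : Fin 6) (hi : i < 3) (r : MvPolynomial (Fin 6) K) : X i * (r - σ r) ∈ sqf K S := by
  induction r using MvPolynomial.induction_on with
  | C a => simp [σ]
  | add p q hp hq => convert add_mem hp hq using 1; rw [map_add]; ring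
  | mul_X p j hp =>
    by_cases hj : j < 3
    · convert Ideal.mul_mem_right (X j) _ hp using 1; simp [σ, hj]; ring
    · convert Ideal.mul_mem_left _ p (mix i j hi hj) using 1; simp [σ, hj]; ring

theorem s2 (j : Fin 6) (hj : ¬ j < 3) {r : MvPolynomial (Fin 6) K}
    (hr : r ∈ Ideal.span (Set.range X)) : X j * σ r ∈ sqf K S := by
  induction hr using Submodule.span_induction with
  | mem x h =>
    obtain ⟨i, rfl⟩ := h
    by_cases hi : i < 3
    · simpa [σ, hi, mul_comm] using mix (K := K) i j hi hj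
    · simp [σ, hi]
  | zero => simp
  | add p q _ _ hp hq => rw [map_add, mul_add]; exact add_mem hp hq
  | smul a p _ hp => convert Ideal.mul_mem_left _ (σ a) hp using 1; simp; ring

theorem result (K : Type) [Field K] : ∃ (n : ℕ) (S : Finset (Finset (Fin n))), sqf K S ≠ ⊤ ∧
    (∀ (d : ℕ) (f : MvPolynomial (Fin n) K), f.IsHomogeneous d →
      ((sqf K S).colon {f}).IsPrime → 2 ≤ d) ∧
    ∀ rs : List (MvPolynomial (Fin n) K), (∀ r ∈ rs, r ∈ Ideal.span (Set.range X)) →
      RingTheory.Sequence.IsRegular (MvPolynomial (Fin n) K ⧸ sqf K S) rs → rs.length ≤ 1 := by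
  refine ⟨6, S, fun h => ?_, fun d f hf hP => ?_, fun rs hm hr => ?_⟩
  · simpa using kill ∅ (by decide) (1 : K) (h ▸ Submodule.mem_top : (1 : MvPolynomial _ K) ∈ _)
  · by_contra hd
    have k : ∀ C ∈ S, ∃ i ∈ C, X i * f ∈ sqf K S := fun C hC => by
      have : ∏ i ∈ C, X i ∈ (sqf K S).colon {f} := Submodule.mem_colon_singleton.2
        (Ideal.mul_mem_right _ _ (Ideal.subset_span ⟨C, hC, rfl⟩))
      simpa using Ideal.IsPrime.prod_mem_iff.1 this
    obtain ⟨i, hi, h1⟩ := k {0, 1, 2} (by decide)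
    obtain ⟨j, hj, h2⟩ := k {3, 4, 5} (by decide)
    refine hP.ne_top ((Ideal.eq_top_iff_one _).2 (Submodule.mem_colon_singleton.2 ?_))
    obtain rfl | rfl : d = 0 ∨ d = 1 := by omega
    · rw [← totalDegree_zero_iff_isHomogeneous, totalDegree_eq_zero_iff_eq_C] at hf
      rw [hf] at h1 ⊢
      have := kill {i} (by clear * -; revert i; decide) (1 : K) h1
      simp at this
      simp [this]
    · rw [← mem_homogeneousSubmodule, homogeneousSubmodule_one_eq_span_X,
        Submodule.mem_span_range_iff_exists_fun] at hf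
      obtain ⟨a, rfl⟩ := hf
      have k2 : ∀ i k : Fin 6, (∀ C ∈ S, ¬ C ⊆ {i, k}) → X i * ∑ l, a l • X l ∈ sqf K S →
          a k = 0 := fun i k h h' => by
        have e1 := kill {i} (by clear * -; revert i; decide) (1 : K) h'
        have e2 := kill {i, k} h (1 : K) h'
        by_cases hik : i = k
        · simpa [hik] using e1
        · simp [-Finset.mem_insert, Finset.sum_pair hik] at e1 e2
          simpa [e1] using e2
      have : a = 0 := funext fun k => by
        by_cases hk : k < 3
        · exact k2 i k (by clear * - hi hk; revert i k; decide) h1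
        · exact k2 j k (by clear * - hj hk; revert j k; decide) h2
      simp [this]
  · by_contra hl
    obtain ⟨r, s, t, rfl⟩ : ∃ r s t, rs = r :: s :: t := by
      rcases rs with _ | ⟨r, _ | ⟨s, t⟩⟩
      · simp at hl
      · simp at hl
      · exact ⟨r, s, t, rfl⟩
    obtain ⟨h1, h2⟩ := (RingTheory.Sequence.isRegular_cons_iff _ _ _).1 hr
    have h3 := ((RingTheory.Sequence.isRegular_cons_iff _ _ _).1 h2).1
    have hr' := hm r (by simp)
    have reg : ∀ g, r * g ∈ sqf K S → g ∈ sqf K S := fun g hg =>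
      Ideal.Quotient.eq_zero_iff_mem.1 (h1.right_eq_zero_of_smul
        (Ideal.Quotient.eq_zero_iff_mem.2 hg))
    have mem : ∀ g, (Submodule.Quotient.mk (Ideal.Quotient.mk (sqf K S) g) :
        QuotSMulTop r (MvPolynomial (Fin 6) K ⧸ sqf K S)) = 0 ↔ ∃ c, g - r * c ∈ sqf K S := by
      intro g
      rw [Submodule.Quotient.mk_eq_zero, Submodule.mem_smul_pointwise_iff_exists]
      refine ⟨fun ⟨b, _, h⟩ => ?_, fun ⟨c, h⟩ => ⟨Ideal.Quotient.mk _ c, trivial,
        (Ideal.Quotient.eq.2 h).symm⟩⟩
      obtain ⟨c, rfl⟩ := Ideal.Quotient.mk_surjective b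
      exact ⟨c, Ideal.Quotient.eq.1 h.symm⟩
    have k : ∀ s ∈ Ideal.span (Set.range X), ∃ c, s * σ r - r * c ∈ sqf K S := fun s hs => by
      induction hs using Submodule.span_induction with
      | mem x h =>
        obtain ⟨i, rfl⟩ := h
        by_cases hi : i < 3
        · exact ⟨X i, by convert neg_mem (s1 i hi r) using 1; ring⟩
        · exact ⟨0, by simpa using s2 i hi hr'⟩
      | zero => exact ⟨0, by simp⟩
      | add p q _ _ hp hq =>
        obtain ⟨⟨a, ha⟩, b, hb⟩ := And.intro hp hq
        exact ⟨a + b, by convert add_mem ha hb using 1; ring⟩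
      | smul a p _ hp =>
        obtain ⟨b, hb⟩ := hp
        exact ⟨a * b, by convert Ideal.mul_mem_left _ a hb using 1; simp; ring⟩
    obtain ⟨c, hc⟩ := (mem (σ r)).1 (h3.right_eq_zero_of_smul ((mem _).2 (k s (hm s (by simp)))))
    have e1 := kill {3} (by decide) (Polynomial.X : Polynomial K) (reg (X 3 * c) (by
      convert sub_mem (s2 3 (by decide) hr') (Ideal.mul_mem_left _ (X 3) hc) using 1; ring))
    have e2 := kill {0} (by decide) (Polynomial.X : Polynomial K) (reg (X 0 * (1 - c)) (by
      convert add_mem (s1 0 (by decide) r) (Ideal.mul_mem_left _ (X 0) hc) using 1; ring))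
    have ev : ∀ i : Fin 6, (Polynomial.aeval (0 : K)).comp (aeval fun j =>
        if j ∈ ({i} : Finset (Fin 6)) then (Polynomial.X : Polynomial K) else 0) = aeval 0 :=
      fun i => by ext j; by_cases h : j = i <;> simp [h]
    rw [map_mul, aeval_X, if_pos (by simp), mul_eq_zero, or_iff_right Polynomial.X_ne_zero] at e1 e2
    have e3 := DFunLike.congr_fun (ev 3) c
    have e4 := DFunLike.congr_fun (ev 0) (1 - c)
    rw [AlgHom.comp_apply, e1] at e3
    rw [AlgHom.comp_apply, e2, map_sub, ← e3] at e4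
    simp at e4

end Pool.Agent.Results.MP_d06a13_ag.Triangles
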